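import Pool.Agent.Helper426_AR.Tach

set_option autoImplicit false
open CategoryTheory Pool.Agent.Helper426AR Pool.Agent.Helper426Tach

namespace Pool.Agent.Results.MP_cd91b4_al.BoundedBetti

/-- Tachikawa's conjecture for Cohen-Macaulay local rings containing a field whose canonical module
is of bounded syzygy type. Let R be a commutative Noetherian local ring and ω a finitely generated
R-module such that for some regular sequence x_1, ..., x_n on R and on ω the ring
R / (x_1, ..., x_n) is a finite-dimensional algebra over a field and ω / (x_1, ..., x_n) ω is
isomorphic to its dual. If Ext^j(ω, R) = 0 for all j > 0, and for some d infinitely many syzygies in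
some resolution of ω by finitely generated projective modules are direct sums of modules generated
by d elements (for instance infinitely many Betti numbers of ω are at most d), then ω is isomorphic
to R, that is, R is Gorenstein. -/
theorem result (R : Type) [CommRing R] [IsNoetherianRing R] [IsLocalRing R]
    (ω : ModuleCat.{0} R) (hω : Module.Finite R ω) (hcan : CanType R ω)
    (Z : ℕ → ModuleCat.{0} R) (h0 : Z 0 = ω) (hZ : Chain Z)
    (d : ℕ) (hd : ∀ m : ℕ, ∃ j : ℕ, m ≤ j ∧ BddSum d (Z j))
    (hExt : ∀ j, 0 < j → Subsingleton (Abelian.Ext.{0} ω (ModuleCat.of R R) j)) :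
    Nonempty (ω ≃ₗ[R] R) :=
  tach_main hcan Z h0 hZ hω d hd hExt

end Pool.Agent.Results.MP_cd91b4_al.BoundedBetti
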