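import Pool.Agent.Helper426_AR.TachIT

set_option autoImplicit false
open CategoryTheory Pool.Agent.Helper426AR Pool.Agent.Helper426TauT

namespace Pool.Agent.Results.MP_cd91b4_al.IgusaTodorovType

/-- Tachikawa's conjecture for Cohen-Macaulay local rings whose canonical module is of
Igusa-Todorov type. Let R be a commutative Noetherian local ring, ω and G_1, ..., G_N finitely
generated R-modules such that some sequence x_1, ..., x_n is regular on R, on ω and on all the G_a,
the ring R / (x_1, ..., x_n) is artinian and ω / (x_1, ..., x_n) ω is an indecomposable injective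
module over it (R is Cohen-Macaulay with canonical module ω, and the G_a are maximal
Cohen-Macaulay). If Ext^j(ω, R) = 0 for all j > 0 and infinitely many syzygies Z_j in some resolution
of ω by finitely generated projective modules have an exact sequence 0 → V1 → V0 → Z_j → 0 with V1
and V0 finite direct sums of copies of the G_a, then ω is isomorphic to R, that is, R is
Gorenstein. -/
theorem result (R : Type) [CommRing R] [IsNoetherianRing R] [IsLocalRing R]
    (ω : ModuleCat.{0} R) (hω : Module.Finite R ω) (N : ℕ)
    (G : Fin N → ModuleCat.{0} R) (hG : ∀ a, Module.Finite R (G a)) (hcan : CanOn R ω N G)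
    (Z : ℕ → ModuleCat.{0} R) (h0 : Z 0 = ω) (hZ : Chain Z)
    (hd : ∀ m : ℕ, ∃ j : ℕ, m ≤ j ∧ TwoStep G (Z j))
    (hExt : ∀ j, 0 < j → Subsingleton (Abelian.Ext.{0} ω (ModuleCat.of R R) j)) :
    Nonempty (ω ≃ₗ[R] R) :=
  tach_it hcan hG Z h0 hZ hω hd hExt

end Pool.Agent.Results.MP_cd91b4_al.IgusaTodorovType
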